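import Mathlib

/-!
Linear algebra and local analysis: a matrix family `T` intertwined with a two by two family
through `T (t ^ 2) J t = J t M t` has a pathology of the first kind at `0`.
-/

open Set Filter Topology Matrix Polynomial

namespace Pool.Agent.MP_1bac39_an.H95

theorem diag_facts {n : ℕ} (T : Matrix (Fin n) (Fin n) ℂ) (v : Fin n → Fin n → ℂ) (μ : Fin n → ℂ)
    (hv : LinearIndependent ℂ v) (h : ∀ j, T *ᵥ v j = μ j • v j) :
    T.charpoly = ∏ j, (X - C (μ j)) ∧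
    (∀ a, Module.End.eigenspace (Matrix.toLin' T) a = Submodule.span ℂ (v '' {j | μ j = a})) ∧
    ∃ P : Matrix (Fin n) (Fin n) ℂ, IsUnit P ∧ (P⁻¹ * T * P).IsDiag := by
  set P : Matrix (Fin n) (Fin n) ℂ := Matrix.of fun i j => v j i with hP
  have hU : IsUnit P := Matrix.linearIndependent_cols_iff_isUnit.1 hv
  have hdet : IsUnit P.det := (Matrix.isUnit_iff_isUnit_det P).1 hU
  have hTP : T * P = P * Matrix.diagonal μ := by
    ext i j
    have := congrFun (h j) i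
    simp only [Matrix.mulVec, dotProduct, Pi.smul_apply, smul_eq_mul] at this
    rw [Matrix.mul_diagonal, Matrix.mul_apply]
    simp only [hP, Matrix.of_apply]
    rw [this, mul_comm]
  have hconj : P⁻¹ * T * P = Matrix.diagonal μ := by
    rw [Matrix.mul_assoc, hTP, ← Matrix.mul_assoc, Matrix.nonsing_inv_mul _ hdet, Matrix.one_mul]
  refine ⟨?_, fun a => ?_, P, hU, by rw [hconj]; exact Matrix.isDiag_diagonal μ⟩
  · rw [← Matrix.charpoly_diagonal, ← hconj, Matrix.charpoly_mul_comm, ← Matrix.mul_assoc,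
      Matrix.mul_nonsing_inv _ hdet, Matrix.one_mul]
  · apply le_antisymm
    · intro x hx
      rw [Module.End.mem_eigenspace_iff, Matrix.toLin'_apply] at hx
      obtain ⟨y, rfl⟩ : ∃ y : Fin n → ℂ, x = ∑ j, y j • v j := by
        refine ⟨P⁻¹ *ᵥ x, ?_⟩
        have : P *ᵥ (P⁻¹ *ᵥ x) = x := by
          rw [Matrix.mulVec_mulVec, Matrix.mul_nonsing_inv _ hdet, Matrix.one_mulVec]
        conv_lhs => rw [← this]
        ext i
        simp [Matrix.mulVec, dotProduct, hP, Finset.sum_apply, mul_comm]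
      have h2 : ∑ j, (y j * (μ j - a)) • v j = 0 := by
        rw [Matrix.mulVec_sum, Finset.smul_sum] at hx
        simp only [Matrix.mulVec_smul, h] at hx
        rw [← sub_eq_zero, ← Finset.sum_sub_distrib] at hx
        rw [← hx]
        refine Finset.sum_congr rfl fun j _ => ?_
        rw [smul_smul, smul_smul, ← sub_smul]
        congr 1
        ring
      have h3 := Fintype.linearIndependent_iff.1 hv _ h2
      refine Submodule.sum_mem _ fun j _ => ?_
      by_cases hj : μ j = a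
      · exact Submodule.smul_mem _ _ (Submodule.subset_span ⟨j, hj, rfl⟩)
      · have : y j = 0 := by
          rcases mul_eq_zero.1 (h3 j) with h4 | h4
          · exact h4
          · exact absurd (sub_eq_zero.1 h4) hj
        simp [this]
    · rw [Submodule.span_le]
      rintro _ ⟨j, hj, rfl⟩
      simp only [SetLike.mem_coe, Module.End.mem_eigenspace_iff, Matrix.toLin'_apply]
      rw [h j, hj]

theorem discr_ne_zero_of {n : ℕ} (hn : 0 < n) (T : Matrix (Fin n) (Fin n) ℂ) (μ : Fin n → ℂ)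
    (h : T.charpoly = ∏ j, (X - C (μ j))) (hμ : Function.Injective μ) : T.discr ≠ 0 := by
  have hsep : T.charpoly.Separable := by
    rw [h]; exact Polynomial.separable_prod_X_sub_C_iff.2 hμ
  have hnd : T.charpoly.natDegree = n := by simp [Matrix.charpoly_natDegree_eq_dim]
  have hdeg : 0 < T.charpoly.degree := by
    rw [← Polynomial.natDegree_pos_iff_degree_pos, hnd]; exact hn
  have h1 := Polynomial.resultant_ne_zero _ _ hsep
  have h2 := Polynomial.resultant_deriv hdeg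
  rw [← Polynomial.natDegree_derivative] at h2
  intro h0
  apply h1
  unfold Matrix.discr at h0
  rw [h2, h0, mul_zero]

/-- Initial data of a solution of the Hill equation seen as a solution of the squared equation. -/
def jet (Q₀ Q₁ t v₁ v₂ : ℂ) : Fin 4 → ℂ := ![v₁, v₂, (t - Q₀) * v₁, (t - Q₀) * v₂ - Q₁ * v₁]

/-- Derivative of `jet` in the parameter at `0`. -/
def jet' (Q₀ Q₁ v₁ v₂ w₁ w₂ : ℂ) : Fin 4 → ℂ :=
  ![w₁, w₂, v₁ - Q₀ * w₁, v₂ - Q₀ * w₂ - Q₁ * w₁]

theorem branch (T : ℂ → Matrix (Fin 4) (Fin 4) ℂ) (hT : ∀ i j, Differentiable ℂ (fun l => T l i j))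
    (a β γ δ : ℂ → ℂ) (ha : Differentiable ℂ a) (hβ : Differentiable ℂ β)
    (hγ : Differentiable ℂ γ) (hδ : Differentiable ℂ δ)
    (hdet : ∀ t, a t * δ t - γ t * β t = 1) (Q₀ Q₁ : ℂ)
    (hJ : ∀ t v₁ v₂, T (t ^ 2) *ᵥ jet Q₀ Q₁ t v₁ v₂ =
      jet Q₀ Q₁ t (a t * v₁ + β t * v₂) (γ t * v₁ + δ t * v₂))
    (hΔ : HasDerivAt (fun t => a t + δ t) 0 0)
    (S : ℂ → ℂ) (hS : AnalyticAt ℂ S 0) (hS2 : ∀ t, S t ^ 2 = (a t + δ t) ^ 2 - 4)
    (hS0 : S 0 ≠ 0) :
    ∃ (v₁ v₂ : ℂ → ℂ) (w₁ w₂ : ℂ), (v₁ 0 ≠ 0 ∨ v₂ 0 ≠ 0) ∧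
      (a 0 * v₁ 0 + β 0 * v₂ 0 = (a 0 + δ 0 + S 0) / 2 * v₁ 0) ∧
      (γ 0 * v₁ 0 + δ 0 * v₂ 0 = (a 0 + δ 0 + S 0) / 2 * v₂ 0) ∧
      (∀ t, T (t ^ 2) *ᵥ jet Q₀ Q₁ t (v₁ t) (v₂ t) =
        ((a t + δ t + S t) / 2) • jet Q₀ Q₁ t (v₁ t) (v₂ t)) ∧
      HasDerivAt (fun t => jet Q₀ Q₁ t (v₁ t) (v₂ t)) (jet' Q₀ Q₁ (v₁ 0) (v₂ 0) w₁ w₂) 0 ∧
      T 0 *ᵥ jet' Q₀ Q₁ (v₁ 0) (v₂ 0) w₁ w₂ =
        ((a 0 + δ 0 + S 0) / 2) • jet' Q₀ Q₁ (v₁ 0) (v₂ 0) w₁ w₂ := by
  set r : ℂ → ℂ := fun t => (a t + δ t + S t) / 2 with hr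
  have hr2 : ∀ t, r t ^ 2 - (a t + δ t) * r t + 1 = 0 := by
    intro t
    simp only [hr]
    linear_combination (1 / 4 : ℂ) * hS2 t
  have hS' : HasDerivAt S 0 0 := by
    have h1 := hS.differentiableAt.hasDerivAt
    have h2 := h1.pow 2
    have h3 := (hΔ.pow 2).sub_const 4
    have e : (S ^ 2) = fun t => ((fun t => a t + δ t) ^ 2) t - 4 := by
      funext t; simp [hS2]
    rw [e] at h2
    have h4 := h2.unique h3
    simp only [Nat.cast_ofNat, Nat.add_one_sub_one, pow_one, mul_zero, mul_eq_zero,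
      OfNat.ofNat_ne_zero, hS0, or_self, false_or] at h4
    exact h1.congr_deriv h4
  have hr' : HasDerivAt r 0 0 := ((hΔ.add hS').div_const 2).congr_deriv (by simp)
  obtain ⟨v₁, v₂, hv₁, hv₂, hne, he₁, he₂⟩ : ∃ v₁ v₂ : ℂ → ℂ, DifferentiableAt ℂ v₁ 0 ∧
      DifferentiableAt ℂ v₂ 0 ∧ (v₁ 0 ≠ 0 ∨ v₂ 0 ≠ 0) ∧
      (∀ t, a t * v₁ t + β t * v₂ t = r t * v₁ t) ∧
      (∀ t, γ t * v₁ t + δ t * v₂ t = r t * v₂ t) := by
    by_cases h : r 0 = a 0
    · refine ⟨fun t => r t - δ t, γ, hr'.differentiableAt.sub (hδ 0), hγ 0, Or.inl ?_,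
        fun t => ?_, fun t => by ring⟩
      · intro h2
        apply hS0
        simp only [hr] at h h2
        linear_combination h + h2
      · linear_combination -hdet t - hr2 t
    · refine ⟨β, fun t => r t - a t, hβ 0, hr'.differentiableAt.sub (ha 0), Or.inr ?_,
        fun t => by ring, fun t => ?_⟩
      · exact sub_ne_zero.2 h
      · linear_combination -hdet t - hr2 t
  have hz : ∀ t, T (t ^ 2) *ᵥ jet Q₀ Q₁ t (v₁ t) (v₂ t) = r t • jet Q₀ Q₁ t (v₁ t) (v₂ t) := by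
    intro t
    rw [hJ, he₁, he₂]
    ext i
    fin_cases i
    · simp [jet]
    · simp [jet]
    · simp [jet]; ring
    · simp [jet]; ring
  have hd₁ := hv₁.hasDerivAt
  have hd₂ := hv₂.hasDerivAt
  have hzd : HasDerivAt (fun t => jet Q₀ Q₁ t (v₁ t) (v₂ t))
      (jet' Q₀ Q₁ (v₁ 0) (v₂ 0) (deriv v₁ 0) (deriv v₂ 0)) 0 := by
    refine hasDerivAt_pi.2 fun i => ?_
    fin_cases i
    · exact hd₁
    · exact hd₂
    · exact (((hasDerivAt_id (0 : ℂ)).sub_const Q₀).mul hd₁).congr_deriv (by simp [jet']; ring)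
    · exact ((((hasDerivAt_id (0 : ℂ)).sub_const Q₀).mul hd₂).sub (hd₁.const_mul Q₁)).congr_deriv
        (by simp [jet']; ring)
  refine ⟨v₁, v₂, deriv v₁ 0, deriv v₂ 0, hne, he₁ 0, he₂ 0, hz, hzd, ?_⟩
  ext i
  set z : ℂ → Fin 4 → ℂ := fun t => jet Q₀ Q₁ t (v₁ t) (v₂ t) with hzdef
  set z' := jet' Q₀ Q₁ (v₁ 0) (v₂ 0) (deriv v₁ 0) (deriv v₂ 0) with hz'
  have hTt : ∀ j, HasDerivAt (fun t : ℂ => T (t ^ 2) i j) 0 0 := by
    intro j
    have h1 : HasDerivAt (fun l => T l i j) (deriv (fun l => T l i j) ((0 : ℂ) ^ 2)) ((0 : ℂ) ^ 2) :=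
      (hT i j _).hasDerivAt
    have h2 := HasDerivAt.comp (h₂ := fun l => T l i j) (h := fun t : ℂ => t ^ 2) (0 : ℂ) h1
      (hasDerivAt_pow 2 (0 : ℂ))
    exact h2.congr_deriv (by simp)
  have h1 : HasDerivAt (fun t => ∑ j, T (t ^ 2) i j * z t j) (∑ j, T 0 i j * z' j) 0 := by
    refine HasDerivAt.fun_sum fun j _ => ?_
    exact ((hTt j).mul (hasDerivAt_pi.1 hzd j)).congr_deriv (by simp)
  have h2 : HasDerivAt (fun t => r t * z t i) (r 0 * z' i) 0 :=
    (hr'.mul (hasDerivAt_pi.1 hzd i)).congr_deriv (by simp)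
  have e : (fun t => ∑ j, T (t ^ 2) i j * z t j) = fun t => r t * z t i := by
    funext t
    exact congrFun (hz t) i
  rw [e] at h1
  exact h1.unique h2

theorem two_indep {a β γ δ r r' v₁ v₂ u₁ u₂ x y : ℂ} (hr : r ≠ r')
    (hv : v₁ ≠ 0 ∨ v₂ ≠ 0) (hu : u₁ ≠ 0 ∨ u₂ ≠ 0)
    (h1 : a * v₁ + β * v₂ = r * v₁) (h2 : γ * v₁ + δ * v₂ = r * v₂)
    (h3 : a * u₁ + β * u₂ = r' * u₁) (h4 : γ * u₁ + δ * u₂ = r' * u₂)
    (e1 : x * v₁ + y * u₁ = 0) (e2 : x * v₂ + y * u₂ = 0) : x = 0 ∧ y = 0 := by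
  have hrr : r - r' ≠ 0 := sub_ne_zero.2 hr
  have f1 : (r - r') * (x * v₁) = 0 := by
    linear_combination (a - r') * e1 + β * e2 - x * h1 - y * h3
  have f2 : (r - r') * (x * v₂) = 0 := by
    linear_combination γ * e1 + (δ - r') * e2 - x * h2 - y * h4
  have hx : x = 0 := by
    rcases hv with h | h
    · simpa [hrr, h] using f1
    · simpa [hrr, h] using f2
  refine ⟨hx, ?_⟩
  rw [hx] at e1 e2
  rcases hu with h | h
  · simpa [h] using e1
  · simpa [h] using e2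

theorem root_ne {D D' r r' : ℂ} (hD : D ≠ D') (h : r ^ 2 - D * r + 1 = 0)
    (h' : r' ^ 2 - D' * r' + 1 = 0) : r ≠ r' := by
  rintro rfl
  have h0 : r ≠ 0 := by
    rintro rfl
    simp at h
  apply hD
  have : (D - D') * r = 0 := by linear_combination h' - h
  rcases mul_eq_zero.1 this with h1 | h1
  · exact sub_eq_zero.1 h1
  · exact absurd h1 h0

theorem inj4 {a b c d : ℂ} (h01 : a ≠ b) (h02 : a ≠ c) (h03 : a ≠ d) (h12 : b ≠ c) (h13 : b ≠ d)
    (h23 : c ≠ d) : Function.Injective ![a, b, c, d] := by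
  intro i j hij
  fin_cases i <;> fin_cases j <;>
    first
      | rfl
      | exact absurd hij (by assumption)
      | exact absurd hij.symm (by assumption)

theorem main_local (T : ℂ → Matrix (Fin 4) (Fin 4) ℂ)
    (hT : ∀ i j, Differentiable ℂ (fun l => T l i j))
    (a β γ δ : ℂ → ℂ) (ha : Differentiable ℂ a) (hβ : Differentiable ℂ β)
    (hγ : Differentiable ℂ γ) (hδ : Differentiable ℂ δ)
    (hdet : ∀ t, a t * δ t - γ t * β t = 1) (Q₀ Q₁ : ℂ)
    (hJ : ∀ t v₁ v₂, T (t ^ 2) *ᵥ jet Q₀ Q₁ t v₁ v₂ =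
      jet Q₀ Q₁ t (a t * v₁ + β t * v₂) (γ t * v₁ + δ t * v₂))
    (hΔ : HasDerivAt (fun t => a t + δ t) 0 0)
    (him : (a 0 + δ 0).im = 0) (hre : (a 0 + δ 0).re < -2)
    (hodd : ∃ t, a t + δ t ≠ a (-t) + δ (-t)) :
    (∀ᶠ l in 𝓝[≠] (0 : ℂ), (T l).discr ≠ 0) ∧
    (∃ ρ : ℂ → ℂ, AnalyticAt ℂ ρ 0 ∧
      (∀ᶠ t in 𝓝 (0 : ℂ), (ρ t • (1 : Matrix (Fin 4) (Fin 4) ℂ) - T (0 + t ^ 2)).det = 0) ∧
      (∀ᶠ l in 𝓝[≠] (0 : ℂ), Set.InjOn ρ {t | t ^ 2 = l - 0}) ∧
      (T 0).charpoly.rootMultiplicity (ρ 0) = 2 ∧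
      ∃ (w : ℂ → Fin 2 → Fin 4 → ℂ) (w₀ : Fin 2 → Fin 4 → ℂ),
        (∀ᶠ l in 𝓝[≠] (0 : ℂ), Submodule.span ℂ (Set.range (w l)) =
          ⨆ (t : ℂ) (_ : t ^ 2 = l - 0), Module.End.eigenspace (Matrix.toLin' (T l)) (ρ t)) ∧
        Tendsto w (𝓝[≠] (0 : ℂ)) (𝓝 w₀) ∧ LinearIndependent ℂ w₀ ∧
        Submodule.span ℂ (Set.range w₀) = Module.End.eigenspace (Matrix.toLin' (T 0)) (ρ 0)) ∧
    ∃ P : Matrix (Fin 4) (Fin 4) ℂ, IsUnit P ∧ (P⁻¹ * T 0 * P).IsDiag := by
  set Δ : ℂ → ℂ := fun t => a t + δ t with hΔdef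
  have hΔd : Differentiable ℂ Δ := ha.add hδ
  have hΔa : ∀ t, AnalyticAt ℂ Δ t := fun t => hΔd.analyticAt t
  set S : ℂ → ℂ := fun t => (Δ t ^ 2 - 4) ^ (2⁻¹ : ℂ) with hSdef
  have hslit : Δ 0 ^ 2 - 4 ∈ Complex.slitPlane := by
    left
    have h1 : (Δ 0).im = 0 := him
    have h2 : (Δ 0).re < -2 := hre
    simp only [pow_two, Complex.sub_re, Complex.mul_re, h1, Complex.re_ofNat]
    nlinarith
  have hS : AnalyticAt ℂ S 0 :=
    AnalyticAt.cpow (((hΔa 0).pow 2).sub analyticAt_const) analyticAt_const hslit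
  have hS2 : ∀ t, S t ^ 2 = (a t + δ t) ^ 2 - 4 := fun t => Complex.cpow_ofNat_inv_pow _ 2
  have hS0 : S 0 ≠ 0 := by
    intro h
    have := hS2 0
    rw [h] at this
    exact Complex.slitPlane_ne_zero hslit (by simpa using this.symm)
  obtain ⟨v₁, v₂, w₁, w₂, hv, hv1, hv2, hz, hzd, hz0⟩ :=
    branch T hT a β γ δ ha hβ hγ hδ hdet Q₀ Q₁ hJ hΔ S hS hS2 hS0
  obtain ⟨u₁, u₂, x₁, x₂, hu, hu1, hu2, hy, hyd, hy0⟩ :=
    branch T hT a β γ δ ha hβ hγ hδ hdet Q₀ Q₁ hJ hΔ (fun t => -S t) hS.neg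
      (fun t => by rw [neg_sq]; exact hS2 t) (neg_ne_zero.2 hS0)
  set r : ℂ → ℂ := fun t => (a t + δ t + S t) / 2 with hr
  set r' : ℂ → ℂ := fun t => (a t + δ t + -S t) / 2 with hr'
  set z : ℂ → Fin 4 → ℂ := fun t => jet Q₀ Q₁ t (v₁ t) (v₂ t) with hzdef
  set y : ℂ → Fin 4 → ℂ := fun t => jet Q₀ Q₁ t (u₁ t) (u₂ t) with hydef
  set z' := jet' Q₀ Q₁ (v₁ 0) (v₂ 0) w₁ w₂ with hz'
  set y' := jet' Q₀ Q₁ (u₁ 0) (u₂ 0) x₁ x₂ with hy'
  replace hz : ∀ t, T (t ^ 2) *ᵥ z t = r t • z t := hz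
  replace hy : ∀ t, T (t ^ 2) *ᵥ y t = r' t • y t := hy
  replace hz0 : T 0 *ᵥ z' = r 0 • z' := hz0
  replace hy0 : T 0 *ᵥ y' = r' 0 • y' := hy0
  have hq : ∀ t, r t ^ 2 - Δ t * r t + 1 = 0 := by
    intro t; simp only [hr, hΔdef]; linear_combination (1 / 4 : ℂ) * hS2 t
  have hq' : ∀ t, r' t ^ 2 - Δ t * r' t + 1 = 0 := by
    intro t; simp only [hr', hΔdef]; linear_combination (1 / 4 : ℂ) * hS2 t
  have hrr : ∀ t, S t ≠ 0 → r t ≠ r' t := by
    intro t ht h
    apply ht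
    simp only [hr, hr'] at h
    linear_combination h
  have hra : AnalyticAt ℂ r 0 := ((hΔa 0).add hS).div_const
  -- the basis at the ramification point
  have hli0 : LinearIndependent ℂ ![z 0, z', y 0, y'] := by
    rw [Fintype.linearIndependent_iff]
    intro g hg
    have e0 := congrFun hg 0
    have e1 := congrFun hg 1
    have e2 := congrFun hg 2
    have e3 := congrFun hg 3
    simp [Fin.sum_univ_four, hzdef, hydef, hz', hy', jet, jet'] at e0 e1 e2 e3
    obtain ⟨g1, g3⟩ := two_indep (x := g 1) (y := g 3) (hrr 0 hS0) hv hu hv1 hv2 hu1 hu2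
      (by linear_combination e2 + Q₀ * e0) (by linear_combination e3 + Q₀ * e1 + Q₁ * e0)
    rw [g1, g3] at e0 e1
    obtain ⟨g0, g2⟩ := two_indep (x := g 0) (y := g 2) (hrr 0 hS0) hv hu hv1 hv2 hu1 hu2
      (by linear_combination e0) (by linear_combination e1)
    intro i
    fin_cases i
    · exact g0
    · exact g1
    · exact g2
    · exact g3
  clear hv1 hv2 hu1 hu2 hr hr' hzdef hydef hz' hy' hSdef
  clear_value r r' z y z' y' S
  have hT0 : T ((0 : ℂ) ^ 2) = T 0 := by simp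
  obtain ⟨hc0, he0, hdiag⟩ := diag_facts (T 0) ![z 0, z', y 0, y'] ![r 0, r 0, r' 0, r' 0] hli0
    (fun j => by
      fin_cases j
      · simpa [hT0] using hz 0
      · exact hz0
      · simpa [hT0] using hy 0
      · exact hy0)
  have hz00 : z 0 ≠ 0 := hli0.ne_zero 0
  have hy00 : y 0 ≠ 0 := hli0.ne_zero 2
  -- facts in a punctured neighbourhood of the uniformising parameter
  have hneg : Tendsto (fun t : ℂ => -t) (𝓝 0) (𝓝 0) := by
    simpa using (continuous_neg (G := ℂ)).tendsto 0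
  have hzne : ∀ᶠ t in 𝓝 (0 : ℂ), z t ≠ 0 := hzd.continuousAt.eventually_ne hz00
  have hyne : ∀ᶠ t in 𝓝 (0 : ℂ), y t ≠ 0 := hyd.continuousAt.eventually_ne hy00
  have hSne : ∀ᶠ t in 𝓝 (0 : ℂ), S t ≠ 0 := hS.continuousAt.eventually_ne hS0
  have hΔne : ∀ᶠ t in 𝓝[≠] (0 : ℂ), Δ t ≠ Δ (-t) := by
    have hF : Differentiable ℂ (fun t => Δ t - Δ (-t)) := hΔd.sub (hΔd.comp differentiable_neg)
    rcases (hF.analyticAt 0).eventually_eq_zero_or_eventually_ne_zero with h | h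
    · exfalso
      obtain ⟨t, ht⟩ := hodd
      have := AnalyticOnNhd.eqOn_zero_of_preconnected_of_eventuallyEq_zero
        (f := fun t => Δ t - Δ (-t)) (U := univ) (fun t _ => hF.analyticAt t) isPreconnected_univ
        (mem_univ 0) h (mem_univ t)
      exact ht (sub_eq_zero.1 this)
    · exact h.mono fun t ht => sub_ne_zero.1 ht
  have hgood : ∀ᶠ t in 𝓝[≠] (0 : ℂ), t ≠ 0 ∧ r t ≠ r (-t) ∧ (T (t ^ 2)).discr ≠ 0 ∧
      Module.End.eigenspace (Matrix.toLin' (T (t ^ 2))) (r t) = Submodule.span ℂ {z t} ∧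
      Module.End.eigenspace (Matrix.toLin' (T (t ^ 2))) (r (-t)) = Submodule.span ℂ {z (-t)} := by
    filter_upwards [self_mem_nhdsWithin, hΔne, nhdsWithin_le_nhds hzne, nhdsWithin_le_nhds hyne,
      nhdsWithin_le_nhds hSne, nhdsWithin_le_nhds (hneg.eventually hzne),
      nhdsWithin_le_nhds (hneg.eventually hyne), nhdsWithin_le_nhds (hneg.eventually hSne)]
      with t ht0 hD h1 h2 h3 h4 h5 h6
    have n01 : r t ≠ r (-t) := root_ne hD (hq t) (hq (-t))
    have n02 : r t ≠ r' t := hrr t h3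
    have n03 : r t ≠ r' (-t) := root_ne hD (hq t) (hq' (-t))
    have n12 : r (-t) ≠ r' t := root_ne hD.symm (hq (-t)) (hq' t)
    have n13 : r (-t) ≠ r' (-t) := hrr (-t) h6
    have n23 : r' t ≠ r' (-t) := root_ne hD (hq' t) (hq' (-t))
    have hinj : Function.Injective ![r t, r (-t), r' t, r' (-t)] := by
      exact inj4 n01 n02 n03 n12 n13 n23
    have hev : ∀ j, T (t ^ 2) *ᵥ ![z t, z (-t), y t, y (-t)] j =
        ![r t, r (-t), r' t, r' (-t)] j • ![z t, z (-t), y t, y (-t)] j := by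
      intro j
      fin_cases j
      · exact hz t
      · simpa using hz (-t)
      · exact hy t
      · simpa using hy (-t)
    have hli : LinearIndependent ℂ ![z t, z (-t), y t, y (-t)] := by
      refine Module.End.eigenvectors_linearIndependent' (Matrix.toLin' (T (t ^ 2))) _ hinj _ ?_
      intro j
      refine ⟨Module.End.mem_eigenspace_iff.2 (by rw [Matrix.toLin'_apply]; exact hev j), ?_⟩
      fin_cases j
      · exact h1
      · exact h4
      · exact h2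
      · exact h5
    obtain ⟨hc, he, -⟩ := diag_facts _ _ _ hli hev
    refine ⟨ht0, n01, discr_ne_zero_of (by norm_num) _ _ hc hinj, ?_, ?_⟩
    · rw [he]
      congr 1
      have : {j | ![r t, r (-t), r' t, r' (-t)] j = r t} = {0} := by
        ext j
        exact (hinj.eq_iff (b := 0))
      rw [this, Set.image_singleton]
      rfl
    · rw [he]
      congr 1
      have : {j | ![r t, r (-t), r' t, r' (-t)] j = r (-t)} = {1} := by
        ext j
        exact (hinj.eq_iff (b := 1))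
      rw [this, Set.image_singleton]
      rfl
  -- a square root of the spectral parameter
  set τ : ℂ → ℂ := fun l => l ^ (2⁻¹ : ℂ) with hτ
  have hτ2 : ∀ l, τ l ^ 2 = l := fun l => Complex.cpow_ofNat_inv_pow _ 2
  have hτt : Tendsto τ (𝓝[≠] 0) (𝓝[≠] 0) := by
    refine tendsto_nhdsWithin_iff.2 ⟨?_, ?_⟩
    · rw [tendsto_zero_iff_norm_tendsto_zero]
      have e : (fun l => ‖τ l‖) = fun l => √‖l‖ := by
        funext l
        rw [← Real.sqrt_sq (norm_nonneg (τ l)), ← norm_pow, hτ2]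
      rw [e]
      have : Continuous fun l : ℂ => √‖l‖ := by fun_prop
      simpa using (this.tendsto 0).mono_left nhdsWithin_le_nhds
    · filter_upwards [self_mem_nhdsWithin] with l hl h
      apply hl
      have := hτ2 l
      rw [mem_singleton_iff.1 h] at this
      simpa using this.symm
  have hset : ∀ l, {t : ℂ | t ^ 2 = l - 0} = {τ l, -τ l} := by
    intro l
    ext t
    simp only [sub_zero, mem_ofPred_eq, mem_insert_iff, mem_singleton_iff]
    rw [← sq_eq_sq_iff_eq_or_eq_neg, hτ2]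
  have hgoodl := hτt.eventually hgood
  refine ⟨?_, ⟨r, hra, ?_, ?_, ?_, fun l => ![z (τ l), (τ l)⁻¹ • (z (τ l) - z (-τ l))],
    ![z 0, (2 : ℂ) • z'], ?_, ?_, ?_, ?_⟩, hdiag⟩
  · filter_upwards [hgoodl] with l hl
    have := hl.2.2.1
    rwa [hτ2] at this
  · filter_upwards [hzne] with t ht
    rw [← Matrix.exists_mulVec_eq_zero_iff]
    refine ⟨z t, ht, ?_⟩
    rw [zero_add, Matrix.sub_mulVec, hz, Matrix.smul_mulVec, Matrix.one_mulVec, sub_self]
  · filter_upwards [hgoodl] with l hl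
    rw [hset, Set.injOn_pair]
    exact fun h => absurd h hl.2.1
  · rw [hc0, Fin.prod_univ_four]
    have hne := hrr 0 hS0
    simp only [Matrix.cons_val_zero, Matrix.cons_val_one, Matrix.cons_val]
    rw [rootMultiplicity_mul, rootMultiplicity_mul, rootMultiplicity_mul]
    · simp [rootMultiplicity_X_sub_C, hne]
    all_goals simp [X_sub_C_ne_zero]
  · filter_upwards [hgoodl] with l hl
    obtain ⟨h0, -, -, h1, h2⟩ := hl
    rw [hτ2] at h1 h2
    have e : (⨆ (t : ℂ) (_ : t ^ 2 = l - 0), Module.End.eigenspace (Matrix.toLin' (T l)) (r t)) =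
        Module.End.eigenspace (Matrix.toLin' (T l)) (r (τ l)) ⊔
          Module.End.eigenspace (Matrix.toLin' (T l)) (r (-τ l)) := by
      rw [← iSup_pair (f := fun t => Module.End.eigenspace (Matrix.toLin' (T l)) (r t)), ← hset l]
      rfl
    rw [e, h1, h2, ← Submodule.span_union, Matrix.range_cons, Matrix.range_cons,
      Matrix.range_empty, Set.union_empty]
    apply le_antisymm
    · rw [Submodule.span_le]
      rintro _ (rfl | rfl)
      · exact Submodule.subset_span (Or.inl rfl)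
      · exact Submodule.smul_mem _ _ (Submodule.sub_mem _ (Submodule.subset_span (Or.inl rfl))
          (Submodule.subset_span (Or.inr rfl)))
    · rw [Submodule.span_le]
      rintro _ (rfl | rfl)
      · exact Submodule.subset_span (Or.inl rfl)
      · have : z (-τ l) = z (τ l) - τ l • ((τ l)⁻¹ • (z (τ l) - z (-τ l))) := by
          rw [smul_smul, mul_inv_cancel₀ h0, one_smul]; abel
        rw [SetLike.mem_coe, this]
        refine Submodule.sub_mem _ (Submodule.subset_span (Or.inl rfl))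
          (Submodule.smul_mem _ _ (Submodule.subset_span (Or.inr ?_)))
        rw [← this]
        rfl
  · have h1 : Tendsto (fun t => z t) (𝓝[≠] 0) (𝓝 (z 0)) :=
      hzd.continuousAt.tendsto.mono_left nhdsWithin_le_nhds
    have h2 : Tendsto (fun t : ℂ => t⁻¹ • (z t - z (-t))) (𝓝[≠] 0) (𝓝 ((2 : ℂ) • z')) := by
      have h3 : HasDerivAt z z' (-0) := by simpa using hzd
      have h4 : HasDerivAt (fun t => z t - z (-t)) ((2 : ℂ) • z') 0 := by
        have h5 := HasDerivAt.scomp (g₁ := z) (h := fun t : ℂ => -t) (0 : ℂ) h3 (hasDerivAt_neg 0)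
        refine (hzd.sub h5).congr_deriv ?_
        rw [two_smul]; simp
      simpa using hasDerivAt_iff_tendsto_slope_zero.1 h4
    refine tendsto_pi_nhds.2 fun i => ?_
    fin_cases i
    · exact h1.comp hτt
    · exact h2.comp hτt
  · rw [LinearIndependent.pair_iff]
    intro s t hst
    have := Fintype.linearIndependent_iff.1 hli0 ![s, 2 * t, 0, 0]
      (by simpa [Fin.sum_univ_four, smul_smul, mul_comm] using hst)
    exact ⟨this 0, by simpa using this 1⟩
  · rw [he0]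
    have hne := hrr 0 hS0
    have : {j | ![r 0, r 0, r' 0, r' 0] j = r 0} = {0, 1} := by
      ext j
      fin_cases j <;> simp [hne.symm]
    rw [this, Set.image_pair, Matrix.range_cons, Matrix.range_cons, Matrix.range_empty,
      Set.union_empty, Submodule.span_union, Submodule.span_singleton_smul_eq (by simp),
      ← Submodule.span_union]
    rfl

end Pool.Agent.MP_1bac39_an.H95
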