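import Pool.Agent.MP_1bac39_an.H95.Hill

/-!
The fourth order equation `u'''' + p₂ u'' + p₁ u' + p₀ u = l u` as a first order system, its
Floquet matrix, and the link with the Hill equation when the operator is a square.
-/

open Set Filter Topology Matrix

namespace Pool.Agent.MP_1bac39_an.H95

/-- The map `y ↦ (0, 0, 0, y k)`. -/
noncomputable def lastE (k : Fin 4) : (Fin 4 → ℂ) →L[ℂ] (Fin 4 → ℂ) :=
  ContinuousLinearMap.pi ![0, 0, 0, ContinuousLinearMap.proj k]

/-- The map `y ↦ (y 1, y 2, y 3, 0)`. -/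
noncomputable def shiftS : (Fin 4 → ℂ) →L[ℂ] (Fin 4 → ℂ) :=
  ContinuousLinearMap.pi ![ContinuousLinearMap.proj 1, ContinuousLinearMap.proj 2,
    ContinuousLinearMap.proj 3, 0]

noncomputable def fourA (p : ℕ → ℝ → ℂ) (x : ℝ) : (Fin 4 → ℂ) →L[ℂ] (Fin 4 → ℂ) :=
  shiftS - p 0 x • lastE 0 - p 1 x • lastE 1 - p 2 x • lastE 2

theorem four_field (p : ℕ → ℝ → ℂ) (l : ℂ) (x : ℝ) (y : Fin 4 → ℂ) :
    fourA p x y + l • lastE 0 y =
      ![y 1, y 2, y 3, l * y 0 - p 0 x * y 0 - p 1 x * y 1 - p 2 x * y 2] := by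
  ext i
  fin_cases i
  · simp [fourA, shiftS, lastE]
  · simp [fourA, shiftS, lastE]
  · simp [fourA, shiftS, lastE]
  · simp [fourA, shiftS, lastE]; ring

/-- `y` solves the first order system attached to the fourth order equation. -/
def FourSol (p : ℕ → ℝ → ℂ) (l : ℂ) (y : ℝ → Fin 4 → ℂ) : Prop :=
  ∀ x, HasDerivAt y
    ![y x 1, y x 2, y x 3, l * y x 0 - p 0 x * y x 0 - p 1 x * y x 1 - p 2 x * y x 2] x

theorem four_bound (p : ℕ → ℝ → ℂ) (b : ℝ) (hb : 0 < b) (hc : ∀ k, Continuous (p k))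
    (hp : ∀ k, Function.Periodic (p k) b) :
    Continuous (fourA p) ∧ ∃ C, (∀ x, ‖fourA p x‖ ≤ C) ∧ ∀ _ : ℝ, ‖lastE 0‖ ≤ C := by
  have h0 := hc 0
  have h1 := hc 1
  have h2 := hc 2
  have hA : Continuous (fourA p) := by unfold fourA; fun_prop
  have hper : Function.Periodic (fourA p) b := by
    intro x; simp only [fourA, hp 0 x, hp 1 x, hp 2 x]
  obtain ⟨C, hC⟩ := periodic_bound hb hper hA
  exact ⟨hA, max C ‖lastE 0‖, fun x => (hC x).trans (le_max_left _ _), fun _ => le_max_right _ _⟩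

theorem FourSol.unique {p : ℕ → ℝ → ℂ} {b : ℝ} (hb : 0 < b) (hc : ∀ k, Continuous (p k))
    (hp : ∀ k, Function.Periodic (p k) b) {l : ℂ} {y z : ℝ → Fin 4 → ℂ}
    (hy : FourSol p l y) (hz : FourSol p l z) (h0 : y 0 = z 0) : y = z := by
  obtain ⟨-, C, h1, h2⟩ := four_bound p b hb hc hp
  exact solution_unique (fourA p) (fun _ => lastE 0) C h1 h2 l y z
    (fun x => by rw [four_field]; exact hy x) (fun x => by rw [four_field]; exact hz x) h0

theorem four_exists {p : ℕ → ℝ → ℂ} {b : ℝ} (hb : 0 < b) (hc : ∀ k, Continuous (p k))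
    (hp : ∀ k, Function.Periodic (p k) b) (v : Fin 4 → ℂ) :
    ∃ y : ℂ → ℝ → Fin 4 → ℂ, (∀ l, y l 0 = v) ∧ (∀ l, FourSol p l (y l)) ∧
      ∀ x, Differentiable ℂ (fun l => y l x) := by
  obtain ⟨hA, C, h1, h2⟩ := four_bound p b hb hc hp
  obtain ⟨y, hy0, hy, hd⟩ := exists_solution (fourA p) (fun _ => lastE 0) hA continuous_const C h1 h2 v
  exact ⟨y, hy0, fun l x => by have := hy l x; rwa [four_field] at this, hd⟩

theorem FourSol.sum {p : ℕ → ℝ → ℂ} {l : ℂ} {Y : Fin 4 → ℝ → Fin 4 → ℂ}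
    (hY : ∀ j, FourSol p l (Y j)) (a : Fin 4 → ℂ) :
    FourSol p l (fun x => ∑ j, a j • Y j x) := by
  intro x
  have := HasDerivAt.fun_sum (u := Finset.univ) (fun j _ => (hY j x).const_smul (a j))
  refine this.congr_deriv ?_
  ext i
  fin_cases i
  · simp [Fin.sum_univ_four]
  · simp [Fin.sum_univ_four]
  · simp [Fin.sum_univ_four]
  · simp [Fin.sum_univ_four]; ring

theorem FourSol.shift {p : ℕ → ℝ → ℂ} {b : ℝ} (hp : ∀ k, Function.Periodic (p k) b) {l : ℂ}
    {y : ℝ → Fin 4 → ℂ} (hy : FourSol p l y) : FourSol p l (fun x => y (x + b)) := by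
  intro x
  have := (hy (x + b)).comp_add_const
  rwa [hp 0 x, hp 1 x, hp 2 x] at this

theorem FourSol.iterated {p : ℕ → ℝ → ℂ} (hc : ∀ k, Continuous (p k)) {l : ℂ}
    {y : ℝ → Fin 4 → ℂ} (hy : FourSol p l y) :
    ContDiff ℝ (4 : ℕ) (fun x => y x 0) ∧
    (∀ x, iteratedDeriv 4 (fun x => y x 0) x +
      ∑ k ∈ Finset.range (4 - 1), p k x * iteratedDeriv k (fun x => y x 0) x = l * y x 0) ∧
    (∀ k : Fin 4, iteratedDeriv k (fun x => y x 0) = fun x => y x k) := by
  have hcomp : ∀ x (i : Fin 4), HasDerivAt (fun x => y x i)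
      (![y x 1, y x 2, y x 3, l * y x 0 - p 0 x * y x 0 - p 1 x * y x 1 - p 2 x * y x 2] i) x :=
    fun x i => hasDerivAt_pi.1 (hy x) i
  have hcont : ∀ i : Fin 4, Continuous (fun x => y x i) := fun i =>
    continuous_iff_continuousAt.2 fun x => (hcomp x i).continuousAt
  have hdiff : ∀ i : Fin 4, Differentiable ℝ (fun x => y x i) := fun i x =>
    (hcomp x i).differentiableAt
  have e0 : iteratedDeriv 0 (fun x => y x 0) = fun x => y x 0 := iteratedDeriv_zero
  have e1 : iteratedDeriv 1 (fun x => y x 0) = fun x => y x 1 := by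
    rw [iteratedDeriv_succ, e0]; funext x; exact (hcomp x 0).deriv
  have e2 : iteratedDeriv 2 (fun x => y x 0) = fun x => y x 2 := by
    rw [iteratedDeriv_succ, e1]; funext x; exact (hcomp x 1).deriv
  have e3 : iteratedDeriv 3 (fun x => y x 0) = fun x => y x 3 := by
    rw [iteratedDeriv_succ, e2]; funext x; exact (hcomp x 2).deriv
  have e4 : iteratedDeriv 4 (fun x => y x 0) =
      fun x => l * y x 0 - p 0 x * y x 0 - p 1 x * y x 1 - p 2 x * y x 2 := by
    rw [iteratedDeriv_succ, e3]; funext x; exact (hcomp x 3).deriv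
  refine ⟨contDiff_nat_iff_iteratedDeriv.2 ⟨fun m hm => ?_, fun m hm => ?_⟩, fun x => ?_,
    fun k => ?_⟩
  · interval_cases m
    · rw [e0]; exact hcont 0
    · rw [e1]; exact hcont 1
    · rw [e2]; exact hcont 2
    · rw [e3]; exact hcont 3
    · rw [e4]
      have h0 := hc 0
      have h1 := hc 1
      have h2 := hc 2
      have g0 := hcont 0
      have g1 := hcont 1
      have g2 := hcont 2
      fun_prop
  · interval_cases m
    · rw [e0]; exact hdiff 0
    · rw [e1]; exact hdiff 1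
    · rw [e2]; exact hdiff 2
    · rw [e3]; exact hdiff 3
  · simp only [Finset.sum_range_succ, Finset.range_zero, Finset.sum_empty, e0, e1, e2, e4]
    ring
  · fin_cases k
    · exact e0
    · exact e1
    · exact e2
    · exact e3

/-- Existence of the Floquet matrix, entire in the spectral parameter, together with the fact that
it transports the initial data of every solution over one period. -/
theorem exists_floquet {p : ℕ → ℝ → ℂ} {b : ℝ} (hb : 0 < b) (hc : ∀ k, Continuous (p k))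
    (hp : ∀ k, Function.Periodic (p k) b) :
    ∃ T : ℂ → Matrix (Fin 4) (Fin 4) ℂ,
      (∀ l : ℂ, ∃ u : Fin 4 → ℝ → ℂ,
        (∀ j, ContDiff ℝ (4 : ℕ) (u j)) ∧
        (∀ j x, iteratedDeriv 4 (u j) x +
          ∑ k ∈ Finset.range (4 - 1), p k x * iteratedDeriv k (u j) x = l * u j x) ∧
        (∀ j k : Fin 4, iteratedDeriv k (u j) 0 = if j = k then 1 else 0) ∧
        (∀ j x, u j (x + b) = ∑ i, T l i j * u i x)) ∧
      (∀ i j, Differentiable ℂ (fun l => T l i j)) ∧
      (∀ l y, FourSol p l y → y b = T l *ᵥ y 0) := by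
  choose Y hY0 hY hYd using fun j : Fin 4 => four_exists hb hc hp (Pi.single j 1)
  have hrep : ∀ l y, FourSol p l y → y = fun x => ∑ j, y 0 j • Y j l x := by
    intro l y hy
    refine hy.unique hb hc hp (FourSol.sum (fun j => hY j l) (y 0)) ?_
    ext i
    simp [hY0, Finset.sum_apply, Pi.single_apply]
  refine ⟨fun l => Matrix.of fun i j => Y j l b i, fun l => ⟨fun j x => Y j l x 0, fun j => ?_,
    fun j => ?_, fun j k => ?_, fun j x => ?_⟩, fun i j => ?_, fun l y hy => ?_⟩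
  · exact ((hY j l).iterated hc).1
  · exact ((hY j l).iterated hc).2.1
  · rw [((hY j l).iterated hc).2.2 k]
    simp [hY0, Pi.single_apply, eq_comm]
  · have := congrFun (congrFun (hrep l _ ((hY j l).shift hp)) x) 0
    simpa [Finset.sum_apply] using this
  · exact differentiable_pi.1 (hYd j b) i
  · have := congrFun (hrep l y hy) b
    rw [this]
    ext i
    simp [Matrix.mulVec, dotProduct, Finset.sum_apply, mul_comm]

/-- Coefficients of `(D² + Q)²`. -/
noncomputable def sqCoef (Q Q1 Q2 : ℝ → ℝ) : ℕ → ℝ → ℝ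
  | 0 => fun x => Q2 x + Q x ^ 2
  | 1 => fun x => 2 * Q1 x
  | 2 => fun x => 2 * Q x
  | _ => fun _ => 0

theorem HillSol.fourSol {Q Q1 Q2 : ℝ → ℝ} (h1 : ∀ x, HasDerivAt Q (Q1 x) x)
    (h2 : ∀ x, HasDerivAt Q1 (Q2 x) x) {t : ℂ} {u u' : ℝ → ℂ}
    (hu : HillSol (fun x => (Q x : ℂ)) t u u') :
    FourSol (fun k x => (sqCoef Q Q1 Q2 k x : ℂ)) (t ^ 2)
      (fun x => ![u x, u' x, (t - Q x) * u x, (t - Q x) * u' x - Q1 x * u x]) := by
  intro x
  have hQ := (h1 x).ofReal_comp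
  have hQ1 := (h2 x).ofReal_comp
  refine hasDerivAt_pi.2 fun i => ?_
  fin_cases i
  · exact hu.d1 x
  · exact hu.d2 x
  · exact ((hQ.const_sub t).mul (hu.d1 x)).congr_deriv (by simp; ring)
  · exact (((hQ.const_sub t).mul (hu.d2 x)).sub (hQ1.mul (hu.d1 x))).congr_deriv
      (by simp [sqCoef]; ring)

end Pool.Agent.MP_1bac39_an.H95
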