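import Pool.Agent.MP_1bac39_an.H95.Hill

/-!
A real trigonometric potential whose Hill discriminant has a critical point inside an open gap
and is not symmetric about that point.
-/

open Set Filter Topology Real

namespace Pool.Agent.MP_1bac39_an.H95

/-- The potential, shifted by the constant `m`. -/
noncomputable def pot (m x : ℝ) : ℝ := 1 - m - 8 * sin x * cos x - 4 * sin x ^ 4

noncomputable def pot1 (x : ℝ) : ℝ := -8 * (cos x ^ 2 - sin x ^ 2) - 16 * sin x ^ 3 * cos x

noncomputable def pot2 (x : ℝ) : ℝ :=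
  32 * sin x * cos x - 48 * sin x ^ 2 * cos x ^ 2 + 16 * sin x ^ 4

theorem pot_hasDerivAt (m x : ℝ) : HasDerivAt (pot m) (pot1 x) x := by
  have h := ((hasDerivAt_const x (1 - m)).sub
    (((hasDerivAt_sin x).const_mul 8).mul (hasDerivAt_cos x))).sub
    (((hasDerivAt_sin x).pow 4).const_mul 4)
  exact h.congr_deriv (by simp [pot1]; ring)

theorem pot1_hasDerivAt (x : ℝ) : HasDerivAt pot1 (pot2 x) x := by
  have h := ((((hasDerivAt_cos x).pow 2).sub ((hasDerivAt_sin x).pow 2)).const_mul (-8)).sub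
    ((((hasDerivAt_sin x).pow 3).const_mul 16).mul (hasDerivAt_cos x))
  exact h.congr_deriv (by simp [pot2]; ring)

theorem pot_periodic (m : ℝ) : Function.Periodic (pot m) π := by
  intro x; simp [pot, sin_add_pi, cos_add_pi]; ring

theorem pot1_periodic : Function.Periodic pot1 π := by
  intro x; simp [pot1, sin_add_pi, cos_add_pi]; ring

theorem pot2_periodic : Function.Periodic pot2 π := by
  intro x; simp [pot2, sin_add_pi, cos_add_pi]; ring

theorem pot_bound (x : ℝ) : |pot 0 x| ≤ 13 := by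
  have h1 := abs_sin_le_one x
  have h2 := abs_cos_le_one x
  have h3 : |sin x * cos x| ≤ 1 := by
    rw [abs_mul]; exact mul_le_one₀ h1 (abs_nonneg _) h2
  have h4 : |sin x ^ 4| ≤ 1 := by
    rw [abs_pow]; exact pow_le_one₀ (abs_nonneg _) h1
  rw [abs_le] at h3 h4 ⊢
  unfold pot
  constructor <;> nlinarith [h3.1, h3.2, h4.1, h4.2]

theorem explicit_sol : HillSol (fun x => (pot 0 x : ℂ)) (0 : ℝ)
    (fun x => ((exp (x - sin x * cos x) * sin x : ℝ) : ℂ))
    (fun x => ((exp (x - sin x * cos x) * (2 * sin x ^ 3 + cos x) : ℝ) : ℂ)) := by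
  have hg : ∀ x, HasDerivAt (fun x => exp (x - sin x * cos x))
      (exp (x - sin x * cos x) * (2 * sin x ^ 2)) x := by
    intro x
    have := ((hasDerivAt_id x).sub ((hasDerivAt_sin x).mul (hasDerivAt_cos x))).exp
    refine this.congr_deriv ?_
    have := sin_sq_add_cos_sq x
    simp only [id, Pi.sub_apply, Pi.mul_apply]
    congr 1
    linarith
  refine ⟨fun x => ?_, fun x => ?_⟩
  · have := ((hg x).mul (hasDerivAt_sin x)).ofReal_comp
    refine this.congr_deriv ?_
    congr 1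
    ring
  · have := ((hg x).mul ((((hasDerivAt_sin x).pow 3).const_mul 2).add (hasDerivAt_cos x))).ofReal_comp
    refine this.congr_deriv ?_
    rw [← Complex.ofReal_sub, ← Complex.ofReal_mul]
    congr 1
    simp [pot]
    ring

theorem exists_gap_critical : ∃ (m : ℝ) (c c' s s' : ℂ → ℝ → ℂ),
    (∀ μ, HillSol (fun x => (pot m x : ℂ)) μ (c μ) (c' μ)) ∧
    (∀ μ, HillSol (fun x => (pot m x : ℂ)) μ (s μ) (s' μ)) ∧
    (∀ μ, c μ 0 = 1) ∧ (∀ μ, c' μ 0 = 0) ∧ (∀ μ, s μ 0 = 0) ∧ (∀ μ, s' μ 0 = 1) ∧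
    Differentiable ℂ (fun μ => c μ π) ∧ Differentiable ℂ (fun μ => c' μ π) ∧
    Differentiable ℂ (fun μ => s μ π) ∧ Differentiable ℂ (fun μ => s' μ π) ∧
    (c 0 π + s' 0 π).im = 0 ∧ (c 0 π + s' 0 π).re < -2 ∧
    HasDerivAt (fun μ => c μ π + s' μ π) 0 0 ∧
    ∃ t : ℂ, c t π + s' t π ≠ c (-t) π + s' (-t) π := by
  have hqc : Continuous (fun x => (pot 0 x : ℂ)) := by unfold pot; fun_prop
  have hqb : ∀ x, ‖(pot 0 x : ℂ)‖ ≤ 13 := fun x => by simpa using pot_bound x
  obtain ⟨c, c', hc, hc0, hc1, hcd, hcd'⟩ := hill_exists _ hqc 13 hqb 1 0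
  obtain ⟨s, s', hs, hs0, hs1, hsd, hsd'⟩ := hill_exists _ hqc 13 hqb 0 1
  set Δ : ℂ → ℂ := fun μ => c μ π + s' μ π with hΔ
  have hΔd : Differentiable ℂ Δ := (hcd π).add (hsd' π)
  have him : ∀ μ : ℝ, (Δ μ).im = 0 := by
    intro μ
    have h1 := (HillSol.im_eq_zero pot_bound (hc μ) (by simp [hc0]) (by simp [hc1]) π).1
    have h2 := (HillSol.im_eq_zero pot_bound (hs μ) (by simp [hs0]) (by simp [hs1]) π).2
    simp [hΔ, h1, h2]
  set D : ℝ → ℝ := fun μ => (Δ μ).re with hD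
  have hDc : Continuous D := by
    have := hΔd.continuous
    exact Complex.continuous_re.comp (this.comp Complex.continuous_ofReal)
  -- value at zero
  have hD0 : D 0 = -(exp π + exp (-π)) := by
    have hu := HillSol.unique hqb (hs ((0 : ℝ) : ℂ)) explicit_sol (by simp [hs0]) (by simp [hs1])
    have e1 : s ((0 : ℝ) : ℂ) π = 0 := by rw [hu.1]; simp
    have e2 : s' ((0 : ℝ) : ℂ) π = -(exp π : ℝ) := by rw [hu.2]; simp
    have hw := (hc ((0 : ℝ) : ℂ)).wronskian (hs ((0 : ℝ) : ℂ)) π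
    rw [e1, e2, hc0, hc1, hs0, hs1] at hw
    have hne : ((exp π : ℝ) : ℂ) ≠ 0 := by exact_mod_cast (exp_pos π).ne'
    have e3 : c ((0 : ℝ) : ℂ) π = -(exp (-π) : ℝ) := by
      rw [Real.exp_neg, Complex.ofReal_inv]
      field_simp
      linear_combination -hw
    show (c ((0 : ℝ) : ℂ) π + s' ((0 : ℝ) : ℂ) π).re = _
    rw [e2, e3, ← neg_add, ← Complex.ofReal_add, ← Complex.ofReal_neg, Complex.ofReal_re]
    ring
  -- large positive parameter
  have hA : ∀ μ : ℝ, 13 ≤ μ → 2 + (μ - 13) * π ^ 2 / 2 ≤ D μ := by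
    intro μ hμ
    have ha : ∀ x, μ - 13 ≤ μ - pot 0 x := fun x => by
      have := (abs_le.1 (pot_bound x)).2; linarith
    have h1 := (hc μ).re.cos_lower (m := μ - 13) (by linarith) ha (by simp [hc0]) (by simp [hc1])
      pi_pos.le
    have h2 := (hs μ).re.sin_lower (fun x => by have := ha x; linarith) (by simp [hs0])
      (by simp [hs1]) pi_pos.le
    show _ ≤ (c μ π + s' μ π).re
    rw [Complex.add_re]
    linarith
  -- large negative parameter
  have hB : ∀ μ : ℝ, μ ≤ -169 → |D μ| ≤ 2 * exp (π / 2) := by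
    intro μ hμ
    obtain ⟨k, hk, rfl⟩ : ∃ k : ℝ, 13 ≤ k ∧ μ = -k ^ 2 := by
      refine ⟨√(-μ), ?_, ?_⟩
      · rw [le_sqrt (by norm_num) (by linarith)]; linarith
      · rw [sq_sqrt (by linarith)]; ring
    have hk0 : 0 < k := by linarith
    have h1 := RealSol.energy hk0 pot_bound (hc ((-k ^ 2 : ℝ) : ℂ)).re pi_pos.le
    have h2 := RealSol.energy hk0 pot_bound (hs ((-k ^ 2 : ℝ) : ℂ)).re pi_pos.le
    simp only [hc0, hc1, hs0, hs1, Complex.one_re, Complex.zero_re] at h1 h2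
    have he : exp (13 / k * π) ≤ exp (π / 2) ^ 2 := by
      rw [← exp_nat_mul]
      apply exp_le_exp.2
      have : 13 / k ≤ 1 := by rw [div_le_one hk0]; exact hk
      push_cast
      nlinarith [pi_pos]
    have h3 : (c ((-k ^ 2 : ℝ) : ℂ) π).re ^ 2 ≤ exp (π / 2) ^ 2 := by
      refine le_trans ?_ he
      have hk2 : 0 < k ^ 2 := by positivity
      nlinarith [sq_nonneg (c' ((-k ^ 2 : ℝ) : ℂ) π).re]
    have h4 : (s' ((-k ^ 2 : ℝ) : ℂ) π).re ^ 2 ≤ exp (π / 2) ^ 2 := by
      refine le_trans ?_ he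
      have hk2 : 0 < k ^ 2 := by positivity
      nlinarith [mul_nonneg hk2.le (sq_nonneg (s ((-k ^ 2 : ℝ) : ℂ) π).re)]
    have h5 := abs_le_of_sq_le_sq' h3 (exp_pos _).le
    have h6 := abs_le_of_sq_le_sq' h4 (exp_pos _).le
    show |(c ((-k ^ 2 : ℝ) : ℂ) π + s' ((-k ^ 2 : ℝ) : ℂ) π).re| ≤ _
    rw [Complex.add_re, abs_le]
    constructor <;> linarith [h5.1, h5.2, h6.1, h6.2]
  have hL : 2 < exp (π / 2) := by
    have := add_one_le_exp (π / 2)
    linarith [pi_gt_three]
  have hLL : exp π = exp (π / 2) ^ 2 := by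
    rw [← exp_nat_mul]; congr 1; push_cast; ring
  have hD0' : D 0 < -(2 * exp (π / 2)) := by
    rw [hD0, hLL]
    nlinarith [exp_pos (-π)]
  obtain ⟨m, hm, hmin⟩ := (isCompact_Icc (a := (-169 : ℝ)) (b := 13)).exists_isMinOn
    ⟨0, by norm_num⟩ hDc.continuousOn
  have hm0 : D m ≤ D 0 := hmin (show (0 : ℝ) ∈ Icc (-169 : ℝ) 13 by norm_num)
  have hglob : ∀ μ, D m ≤ D μ := by
    intro μ
    rcases le_total μ (-169) with h | h
    · have := (abs_le.1 (hB μ h)).1; linarith
    rcases le_total μ 13 with h' | h'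
    · exact hmin ⟨h, h'⟩
    · have := hA μ h'
      have : 0 ≤ (μ - 13) * π ^ 2 / 2 := by have : 0 ≤ μ - 13 := by linarith
                                            positivity
      linarith
  have hder : HasDerivAt Δ 0 (m : ℂ) := by
    have h1 := (hΔd (m : ℂ)).hasDerivAt
    have h2 := h1.comp_ofReal
    have h3 : HasDerivAt D (deriv Δ m).re m :=
      Complex.reCLM.hasFDerivAt.comp_hasDerivAt m h2
    have h4 : HasDerivAt (fun μ : ℝ => (Δ μ).im) (deriv Δ m).im m :=
      Complex.imCLM.hasFDerivAt.comp_hasDerivAt m h2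
    have h5 : (deriv Δ m).re = 0 :=
      IsLocalMin.hasDerivAt_eq_zero (Eventually.of_forall hglob) h3
    have h6 : (deriv Δ m).im = 0 := by
      simp only [him] at h4
      exact h4.unique (hasDerivAt_const m 0)
    exact h1.congr_deriv (Complex.ext h5 h6)
  have hshift : ∀ {μ : ℂ} {u u' : ℝ → ℂ}, HillSol (fun x => (pot 0 x : ℂ)) (m + μ) u u' →
      HillSol (fun x => (pot m x : ℂ)) μ u u' := by
    intro μ u u' h
    refine ⟨h.d1, fun x => (h.d2 x).congr_deriv ?_⟩
    simp [pot]; left; ring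
  have hsh : Differentiable ℂ (fun μ : ℂ => (m : ℂ) + μ) := by fun_prop
  refine ⟨m, fun μ => c (m + μ), fun μ => c' (m + μ), fun μ => s (m + μ), fun μ => s' (m + μ),
    fun μ => hshift (hc _), fun μ => hshift (hs _), fun μ => hc0 _, fun μ => hc1 _, fun μ => hs0 _,
    fun μ => hs1 _, (hcd π).comp hsh, (hcd' π).comp hsh, (hsd π).comp hsh, (hsd' π).comp hsh,
    ?_, ?_, ?_, ?_⟩
  · simpa [hΔ] using him m
  · have : D m < -2 := by linarith
    simpa [hD, hΔ] using this
  · have h1 : HasDerivAt (fun μ : ℂ => (m : ℂ) + μ) 1 0 := (hasDerivAt_id 0).const_add _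
    have h2 : HasDerivAt Δ 0 ((m : ℂ) + 0) := by simpa using hder
    have := h2.comp (0 : ℂ) h1
    exact this.congr_deriv (by simp)
  · refine ⟨((13 + exp (π / 2) + 169 : ℝ) : ℂ), fun h => ?_⟩
    have h1 := hA (m + (13 + exp (π / 2) + 169)) (by linarith [hm.1])
    have h2 := (abs_le.1 (hB (m + -(13 + exp (π / 2) + 169)) (by linarith [hm.2]))).2
    have h3 : D (m + (13 + exp (π / 2) + 169)) = D (m + -(13 + exp (π / 2) + 169)) := by
      simp only [hD, hΔ, Complex.ofReal_add m, Complex.ofReal_neg]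
      exact congrArg Complex.re h
    have h4 : exp (π / 2) * 4 ≤ (m + (13 + exp (π / 2) + 169) - 13) * π ^ 2 := by
      refine mul_le_mul (by linarith [hm.1]) (by nlinarith [pi_gt_three]) (by norm_num)
        (by linarith [hm.1])
    linarith

end Pool.Agent.MP_1bac39_an.H95
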