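import Pool.Agent.MP_1bac39_an.H95.LinODE

/-!
The Hill equation `u'' = (μ - q x) u`: fundamental system, uniqueness, Wronskian, reality.
-/

open Set Filter Topology

namespace Pool.Agent.MP_1bac39_an.H95

theorem periodic_bound {F : Type*} [NormedAddCommGroup F] {f : ℝ → F} {b : ℝ} (hb : 0 < b)
    (hp : Function.Periodic f b) (hc : Continuous f) : ∃ C, ∀ x, ‖f x‖ ≤ C := by
  obtain ⟨C, hC⟩ := isBounded_iff_forall_norm_le.1 (hp.isBounded_of_continuous hb.ne' hc)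
  exact ⟨C, fun x => hC _ ⟨x, rfl⟩⟩

/-- `u` solves `u'' = (μ - q) u` and `u'` is its derivative. -/
structure HillSol (q : ℝ → ℂ) (μ : ℂ) (u u' : ℝ → ℂ) : Prop where
  d1 : ∀ x, HasDerivAt u (u' x) x
  d2 : ∀ x, HasDerivAt u' ((μ - q x) * u x) x

noncomputable def hillB : ℂ × ℂ →L[ℂ] ℂ × ℂ :=
  (0 : ℂ × ℂ →L[ℂ] ℂ).prod (ContinuousLinearMap.fst ℂ ℂ ℂ)

noncomputable def hillA (q : ℝ → ℂ) (x : ℝ) : ℂ × ℂ →L[ℂ] ℂ × ℂ :=
  (ContinuousLinearMap.snd ℂ ℂ ℂ).prod (0 : ℂ × ℂ →L[ℂ] ℂ) - q x • hillB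

theorem hill_field (q : ℝ → ℂ) (μ : ℂ) (x : ℝ) (y : ℂ × ℂ) :
    hillA q x y + μ • hillB y = (y.2, (μ - q x) * y.1) := by
  ext
  · simp [hillA, hillB]
  · simp [hillA, hillB]; ring

theorem hill_bound (q : ℝ → ℂ) (C : ℝ) (hq : ∀ x, ‖q x‖ ≤ C) :
    ∃ C', (∀ x, ‖hillA q x‖ ≤ C') ∧ ∀ _ : ℝ, ‖hillB‖ ≤ C' := by
  have hC : 0 ≤ C := (norm_nonneg _).trans (hq 0)
  refine ⟨‖(ContinuousLinearMap.snd ℂ ℂ ℂ).prod (0 : ℂ × ℂ →L[ℂ] ℂ)‖ + C * ‖hillB‖ + ‖hillB‖,
    fun x => ?_, fun _ => ?_⟩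
  · refine (norm_sub_le _ _).trans ?_
    rw [norm_smul]
    have := mul_le_mul_of_nonneg_right (hq x) (norm_nonneg hillB)
    linarith [norm_nonneg hillB]
  · have : 0 ≤ C * ‖hillB‖ := by positivity
    linarith [norm_nonneg ((ContinuousLinearMap.snd ℂ ℂ ℂ).prod (0 : ℂ × ℂ →L[ℂ] ℂ))]

theorem hill_exists (q : ℝ → ℂ) (hc : Continuous q) (C : ℝ) (hq : ∀ x, ‖q x‖ ≤ C) (α β : ℂ) :
    ∃ u u' : ℂ → ℝ → ℂ, (∀ μ, HillSol q μ (u μ) (u' μ)) ∧ (∀ μ, u μ 0 = α) ∧ (∀ μ, u' μ 0 = β) ∧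
      (∀ x, Differentiable ℂ (fun μ => u μ x)) ∧ (∀ x, Differentiable ℂ (fun μ => u' μ x)) := by
  obtain ⟨C', h1, h2⟩ := hill_bound q C hq
  have hA : Continuous (hillA q) := by
    unfold hillA; fun_prop
  obtain ⟨y, hy0, hy, hd⟩ := exists_solution (hillA q) (fun _ => hillB) hA continuous_const C' h1 h2
    (α, β)
  refine ⟨fun μ x => (y μ x).1, fun μ x => (y μ x).2, fun μ => ⟨fun x => ?_, fun x => ?_⟩,
    fun μ => by simp [hy0], fun μ => by simp [hy0], fun x => (hd x).fst, fun x => (hd x).snd⟩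
  · have := hy μ x
    rw [hill_field] at this
    exact this.fst
  · have := hy μ x
    rw [hill_field] at this
    exact this.snd

theorem HillSol.unique {q : ℝ → ℂ} {C : ℝ} (hq : ∀ x, ‖q x‖ ≤ C) {μ : ℂ} {u u' w w' : ℝ → ℂ}
    (hu : HillSol q μ u u') (hw : HillSol q μ w w') (h0 : u 0 = w 0) (h1 : u' 0 = w' 0) :
    u = w ∧ u' = w' := by
  obtain ⟨C', h1', h2⟩ := hill_bound q C hq
  have := solution_unique (hillA q) (fun _ => hillB) C' h1' h2 μ (fun x => (u x, u' x))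
    (fun x => (w x, w' x))
    (fun x => by rw [hill_field]; exact (hu.d1 x).prodMk (hu.d2 x))
    (fun x => by rw [hill_field]; exact (hw.d1 x).prodMk (hw.d2 x)) (by simp [h0, h1])
  constructor
  · funext x; exact congrArg Prod.fst (congrFun this x)
  · funext x; exact congrArg Prod.snd (congrFun this x)

theorem HillSol.comb {q : ℝ → ℂ} {μ : ℂ} {u u' w w' : ℝ → ℂ}
    (hu : HillSol q μ u u') (hw : HillSol q μ w w') (α β : ℂ) :
    HillSol q μ (fun x => α * u x + β * w x) (fun x => α * u' x + β * w' x) := by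
  refine ⟨fun x => ((hu.d1 x).const_mul α).add ((hw.d1 x).const_mul β), fun x => ?_⟩
  have := ((hu.d2 x).const_mul α).add ((hw.d2 x).const_mul β)
  exact this.congr_deriv (by ring)

theorem HillSol.wronskian {q : ℝ → ℂ} {μ : ℂ} {u u' w w' : ℝ → ℂ}
    (hu : HillSol q μ u u') (hw : HillSol q μ w w') (x : ℝ) :
    u x * w' x - u' x * w x = u 0 * w' 0 - u' 0 * w 0 := by
  have hd : ∀ x, HasDerivAt (fun x => u x * w' x - u' x * w x) 0 x := by
    intro x
    have := ((hu.d1 x).mul (hw.d2 x)).sub ((hu.d2 x).mul (hw.d1 x))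
    exact this.congr_deriv (by ring)
  exact is_const_of_deriv_eq_zero (fun x => (hd x).differentiableAt) (fun x => (hd x).deriv) x 0

theorem HillSol.conj {q : ℝ → ℝ} {μ : ℝ} {u u' : ℝ → ℂ}
    (hu : HillSol (fun x => (q x : ℂ)) μ u u') :
    HillSol (fun x => (q x : ℂ)) μ (fun x => (starRingEnd ℂ) (u x))
      (fun x => (starRingEnd ℂ) (u' x)) := by
  refine ⟨fun x => ?_, fun x => ?_⟩
  · exact (Complex.conjCLE.toContinuousLinearMap.hasFDerivAt.comp_hasDerivAt x (hu.d1 x))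
  · have := (Complex.conjCLE.toContinuousLinearMap.hasFDerivAt.comp_hasDerivAt x (hu.d2 x))
    exact this.congr_deriv (by simp)

theorem HillSol.im_eq_zero {q : ℝ → ℝ} {C : ℝ} (hq : ∀ x, |q x| ≤ C) {μ : ℝ} {u u' : ℝ → ℂ}
    (hu : HillSol (fun x => (q x : ℂ)) μ u u') (h0 : (u 0).im = 0) (h1 : (u' 0).im = 0) (x : ℝ) :
    (u x).im = 0 ∧ (u' x).im = 0 := by
  have := HillSol.unique (C := C) (by simpa using hq) hu.conj hu
    (Complex.conj_eq_iff_im.2 h0) (Complex.conj_eq_iff_im.2 h1)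
  exact ⟨Complex.conj_eq_iff_im.1 (congrFun this.1 x), Complex.conj_eq_iff_im.1 (congrFun this.2 x)⟩

/-- Real version of the Hill equation `u'' = a u`. -/
structure RealSol (a : ℝ → ℝ) (u u' : ℝ → ℝ) : Prop where
  d1 : ∀ x, HasDerivAt u (u' x) x
  d2 : ∀ x, HasDerivAt u' (a x * u x) x

theorem HillSol.re {q : ℝ → ℝ} {μ : ℝ} {u u' : ℝ → ℂ}
    (hu : HillSol (fun x => (q x : ℂ)) μ u u') :
    RealSol (fun x => μ - q x) (fun x => (u x).re) (fun x => (u' x).re) := by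
  refine ⟨fun x => ?_, fun x => ?_⟩
  · exact (Complex.reCLM.hasFDerivAt.comp_hasDerivAt x (hu.d1 x))
  · have := (Complex.reCLM.hasFDerivAt.comp_hasDerivAt x (hu.d2 x))
    exact this.congr_deriv (by simp)

theorem mono_of_deriv {f f' : ℝ → ℝ} (h : ∀ x, HasDerivAt f (f' x) x) {b : ℝ} (hb : 0 ≤ b)
    (h0 : ∀ x ∈ Icc 0 b, 0 ≤ f' x) : f 0 ≤ f b := by
  have : MonotoneOn f (Icc 0 b) := by
    refine monotoneOn_of_deriv_nonneg (convex_Icc _ _)
      (fun x _ => (h x).continuousAt.continuousWithinAt)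
      (fun x _ => (h x).differentiableAt.differentiableWithinAt) (fun x hx => ?_)
    rw [(h x).deriv]
    exact h0 x (interior_subset hx)
  exact this ⟨le_rfl, hb⟩ ⟨hb, le_rfl⟩ hb

theorem pos_of_sq_ge {f : ℝ → ℝ} (hc : Continuous f) {b : ℝ} (hb : 0 ≤ b) (h0 : f 0 = 1)
    (h : ∀ x ∈ Icc 0 b, 1 ≤ f x ^ 2) : 1 ≤ f b := by
  by_contra hlt
  push Not at hlt
  have hb1 := h b ⟨hb, le_rfl⟩
  have hneg : f b ≤ 0 := by nlinarith
  obtain ⟨x, hx, hx0⟩ := intermediate_value_Icc' hb hc.continuousOn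
    (show (0 : ℝ) ∈ Icc (f b) (f 0) from ⟨hneg, by rw [h0]; norm_num⟩)
  have := h x hx
  rw [hx0] at this
  norm_num at this

/-- If `a ≥ 0` and `u 0 * u' 0 = 0`, then `u u' ≥ 0` on `[0, ∞)`. -/
theorem RealSol.mul_nonneg {a u u' : ℝ → ℝ} (hu : RealSol a u u') (ha : ∀ x, 0 ≤ a x)
    (h0 : u 0 * u' 0 = 0) {x : ℝ} (hx : 0 ≤ x) : 0 ≤ u x * u' x := by
  have := mono_of_deriv (f := fun x => u x * u' x) (fun x => (hu.d1 x).mul (hu.d2 x)) hx
    (fun y _ => by have := ha y; nlinarith [sq_nonneg (u y), sq_nonneg (u' y)])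
  simpa [h0] using this

theorem RealSol.cos_lower {a u u' : ℝ → ℝ} (hu : RealSol a u u') {m : ℝ} (hm : 0 ≤ m)
    (ha : ∀ x, m ≤ a x) (h0 : u 0 = 1) (h1 : u' 0 = 0) {b : ℝ} (hb : 0 ≤ b) :
    1 + m * b ^ 2 / 2 ≤ u b := by
  have ha0 : ∀ x, 0 ≤ a x := fun x => hm.trans (ha x)
  have hc : Continuous u := continuous_iff_continuousAt.2 fun x => (hu.d1 x).continuousAt
  have hsq : ∀ x, 0 ≤ x → 1 ≤ u x ^ 2 := by
    intro x hx
    have := mono_of_deriv (f := fun x => u x * u x) (fun x => (hu.d1 x).mul (hu.d1 x)) hx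
      (fun y hy => by have := hu.mul_nonneg ha0 (by simp [h1]) hy.1; nlinarith)
    simp only [h0] at this
    nlinarith
  have hu1 : ∀ x, 0 ≤ x → 1 ≤ u x := fun x hx =>
    pos_of_sq_ge hc hx h0 (fun y hy => hsq y hy.1)
  have hu' : ∀ x, 0 ≤ x → m * x ≤ u' x := by
    intro x hx
    have := mono_of_deriv (f := fun x => u' x - m * x) (f' := fun x => a x * u x - m)
      (fun x => ((hu.d2 x).sub ((hasDerivAt_id x).const_mul m)).congr_deriv (by simp)) hx
      (fun y hy => by have := hu1 y hy.1; have := ha y; nlinarith)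
    simp only [h1] at this
    linarith
  have := mono_of_deriv (f := fun x => u x - m * x ^ 2 / 2) (f' := fun x => u' x - m * x)
    (fun x => by
      have := (hu.d1 x).sub (((hasDerivAt_pow 2 x).const_mul m).div_const 2)
      exact this.congr_deriv (by simp; ring)) hb
    (fun y hy => by have := hu' y hy.1; linarith)
  simp only [h0] at this
  linarith

theorem RealSol.sin_lower {a u u' : ℝ → ℝ} (hu : RealSol a u u')
    (ha : ∀ x, 0 ≤ a x) (h0 : u 0 = 0) (h1 : u' 0 = 1) {b : ℝ} (hb : 0 ≤ b) :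
    1 ≤ u' b := by
  have hc : Continuous u' := continuous_iff_continuousAt.2 fun x => (hu.d2 x).continuousAt
  have hsq : ∀ x, 0 ≤ x → 1 ≤ u' x ^ 2 := by
    intro x hx
    have := mono_of_deriv (f := fun x => u' x * u' x) (fun x => (hu.d2 x).mul (hu.d2 x)) hx
      (fun y hy => by
        have h2 := hu.mul_nonneg ha (by simp [h0]) hy.1
        have h3 := _root_.mul_nonneg (ha y) h2
        nlinarith)
    simp only [h1] at this
    nlinarith
  exact pos_of_sq_ge hc hb h1 (fun y hy => hsq y hy.1)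

/-- Energy estimate for `u'' = (-k^2 - q) u`. -/
theorem RealSol.energy {q u u' : ℝ → ℝ} {k C : ℝ} (hk : 0 < k) (hq : ∀ x, |q x| ≤ C)
    (hu : RealSol (fun x => -k ^ 2 - q x) u u') {b : ℝ} (hb : 0 ≤ b) :
    u' b ^ 2 + k ^ 2 * u b ^ 2 ≤ (u' 0 ^ 2 + k ^ 2 * u 0 ^ 2) * Real.exp (C / k * b) := by
  have hC : 0 ≤ C := (abs_nonneg _).trans (hq 0)
  have key := mono_of_deriv
    (f := fun x => -((u' x * u' x + k ^ 2 * (u x * u x)) * Real.exp (-(C / k * x))))
    (f' := fun x => (2 * q x * u x * u' x + C / k * (u' x * u' x + k ^ 2 * (u x * u x))) *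
      Real.exp (-(C / k * x)))
    (fun x => by
      have h1 := ((hu.d2 x).mul (hu.d2 x)).add (((hu.d1 x).mul (hu.d1 x)).const_mul (k ^ 2))
      have h2 := (((hasDerivAt_id x).const_mul (C / k)).neg).exp
      have := (h1.mul h2).neg
      exact this.congr_deriv (by simp; ring)) hb
    (fun y _ => by
      refine _root_.mul_nonneg ?_ (Real.exp_pos _).le
      have h1 : |2 * q y * u y * u' y| ≤ C / k * (u' y * u' y + k ^ 2 * (u y * u y)) := by
        have e : |2 * q y * u y * u' y| = |q y| * (2 * |u y| * |u' y|) := by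
          simp only [abs_mul, abs_two]; ring
        rw [e, div_mul_eq_mul_div, mul_div_assoc]
        refine mul_le_mul (hq y) ?_ (by positivity) hC
        rw [le_div_iff₀ hk]
        nlinarith [sq_nonneg (|u' y| - k * |u y|), sq_abs (u y), sq_abs (u' y)]
      linarith [neg_abs_le (2 * q y * u y * u' y)])
  simp only [mul_zero, neg_zero, Real.exp_zero, mul_one, neg_le_neg_iff] at key
  have he : Real.exp (-(C / k * b)) * Real.exp (C / k * b) = 1 := by
    rw [← Real.exp_add]; simp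
  have := mul_le_mul_of_nonneg_right key (Real.exp_pos (C / k * b)).le
  rw [mul_assoc, he] at this
  nlinarith

end Pool.Agent.MP_1bac39_an.H95
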