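import Mathlib

/-!
Global solutions of linear systems `y' = (A x + μ • B x) y` with bounded continuous coefficients,
depending holomorphically on the parameter `μ` (Dyson series), and their uniqueness.
-/

open Set Filter Topology

namespace Pool.Agent.MP_1bac39_an.H95

variable {E : Type*} [NormedAddCommGroup E] [NormedSpace ℂ E] [CompleteSpace E]

/-- Functions of `(μ, x)` that are polynomial in `μ` with coefficients continuous in `x`. -/
inductive PolyCont : (ℂ → ℝ → E) → Prop
  | const (c : ℝ → E) (hc : Continuous c) : PolyCont (fun _ x => c x)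
  | add (f g : ℂ → ℝ → E) : PolyCont f → PolyCont g → PolyCont (fun μ x => f μ x + g μ x)
  | smul (f : ℂ → ℝ → E) : PolyCont f → PolyCont (fun μ x => μ • f μ x)

omit [CompleteSpace E] in
theorem PolyCont.continuous {f : ℂ → ℝ → E} (h : PolyCont f) (μ : ℂ) : Continuous (f μ) := by
  induction h with
  | const c hc => exact hc
  | add f g _ _ ihf ihg => exact ihf.add ihg
  | smul f _ ih => exact ih.const_smul μ

omit [CompleteSpace E] in
theorem PolyCont.differentiable {f : ℂ → ℝ → E} (h : PolyCont f) (x : ℝ) :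
    Differentiable ℂ (fun μ => f μ x) := by
  induction h with
  | const c hc => exact differentiable_const _
  | add f g _ _ ihf ihg => exact ihf.add ihg
  | smul f _ ih => exact differentiable_id.smul ih

omit [CompleteSpace E] in
theorem PolyCont.apply {f : ℂ → ℝ → E} (h : PolyCont f) (A : ℝ → E →L[ℂ] E) (hA : Continuous A) :
    PolyCont (fun μ x => A x (f μ x)) := by
  induction h with
  | const c hc => exact PolyCont.const _ (hA.clm_apply hc)
  | add f g _ _ ihf ihg =>
    have := PolyCont.add _ _ ihf ihg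
    simpa only [map_add] using this
  | smul f _ ih =>
    have := PolyCont.smul _ ih
    simpa only [map_smul] using this

omit [CompleteSpace E] in
theorem PolyCont.integral {f : ℂ → ℝ → E} (h : PolyCont f) :
    PolyCont (fun μ x => ∫ s in (0 : ℝ)..x, f μ s) := by
  induction h with
  | const c hc =>
    refine PolyCont.const _ ?_
    exact intervalIntegral.continuous_primitive (fun a b => hc.intervalIntegrable a b) 0
  | add f g hf hg ihf ihg =>
    have := PolyCont.add _ _ ihf ihg
    have e : (fun μ x => ∫ s in (0 : ℝ)..x, (f μ s + g μ s)) =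
        (fun μ x => (∫ s in (0 : ℝ)..x, f μ s) + ∫ s in (0 : ℝ)..x, g μ s) := by
      funext μ x
      exact intervalIntegral.integral_add ((hf.continuous μ).intervalIntegrable _ _)
        ((hg.continuous μ).intervalIntegrable _ _)
    rw [e]; exact this
  | smul f hf ih =>
    have := PolyCont.smul _ ih
    have e : (fun μ x => ∫ s in (0 : ℝ)..x, μ • f μ s) =
        (fun μ x => μ • ∫ s in (0 : ℝ)..x, f μ s) := by
      funext μ x
      exact intervalIntegral.integral_smul _ _
    rw [e]; exact this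

/-- The terms of the Dyson series. -/
noncomputable def dysonTerm (A B : ℝ → E →L[ℂ] E) (v : E) : ℕ → ℂ → ℝ → E
  | 0 => fun _ _ => v
  | m + 1 => fun μ x => ∫ s in (0 : ℝ)..x, (A s (dysonTerm A B v m μ s) + μ • B s (dysonTerm A B v m μ s))

omit [CompleteSpace E] in
theorem dysonTerm_poly (A B : ℝ → E →L[ℂ] E) (hA : Continuous A) (hB : Continuous B) (v : E)
    (m : ℕ) : PolyCont (dysonTerm A B v m) := by
  induction m with
  | zero => exact PolyCont.const (fun _ => v) continuous_const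
  | succ m ih =>
    exact (PolyCont.add _ _ (ih.apply A hA) (PolyCont.smul _ (ih.apply B hB))).integral

theorem dysonTerm_hasDerivAt (A B : ℝ → E →L[ℂ] E) (hA : Continuous A) (hB : Continuous B) (v : E)
    (m : ℕ) (μ : ℂ) (x : ℝ) :
    HasDerivAt (dysonTerm A B v (m + 1) μ)
      (A x (dysonTerm A B v m μ x) + μ • B x (dysonTerm A B v m μ x)) x := by
  have ih := dysonTerm_poly A B hA hB v m
  have hc := (PolyCont.add _ _ (ih.apply A hA) (PolyCont.smul _ (ih.apply B hB))).continuous μ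
  exact intervalIntegral.integral_hasDerivAt_right (hc.intervalIntegrable _ _)
    (hc.stronglyMeasurableAtFilter _ _) hc.continuousAt

omit [CompleteSpace E] in
theorem norm_field_le (A B : ℝ → E →L[ℂ] E) (C : ℝ) (hAC : ∀ x, ‖A x‖ ≤ C) (hBC : ∀ x, ‖B x‖ ≤ C)
    (μ : ℂ) (R : ℝ) (hμ : ‖μ‖ ≤ R) (x : ℝ) (y : E) :
    ‖A x y + μ • B x y‖ ≤ (C + R * C) * ‖y‖ := by
  have hC : 0 ≤ C := (norm_nonneg _).trans (hAC 0)
  have h1 : ‖A x y‖ ≤ C * ‖y‖ := ((A x).le_opNorm y).trans (by gcongr; exact hAC x)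
  have h2 : ‖B x y‖ ≤ C * ‖y‖ := ((B x).le_opNorm y).trans (by gcongr; exact hBC x)
  have hR : 0 ≤ R := (norm_nonneg _).trans hμ
  calc ‖A x y + μ • B x y‖ ≤ ‖A x y‖ + ‖μ‖ * ‖B x y‖ := by
        rw [← norm_smul]; exact norm_add_le _ _
    _ ≤ C * ‖y‖ + R * (C * ‖y‖) := by gcongr
    _ = (C + R * C) * ‖y‖ := by ring

omit [CompleteSpace E] in
theorem dysonTerm_norm_le (A B : ℝ → E →L[ℂ] E) (v : E)
    (C : ℝ) (hAC : ∀ x, ‖A x‖ ≤ C) (hBC : ∀ x, ‖B x‖ ≤ C) (μ : ℂ) (R : ℝ) (hμ : ‖μ‖ ≤ R)
    (m : ℕ) (x : ℝ) :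
    ‖dysonTerm A B v m μ x‖ ≤ ‖v‖ * ((C + R * C) ^ m * |x| ^ m / (m.factorial : ℝ)) := by
  have hC : 0 ≤ C := (norm_nonneg _).trans (hAC 0)
  have hR : 0 ≤ R := (norm_nonneg _).trans hμ
  set K := C + R * C with hK
  have hK0 : 0 ≤ K := by positivity
  induction m generalizing x with
  | zero => simp [dysonTerm]
  | succ m ih =>
    have hb : ∀ s, ‖A s (dysonTerm A B v m μ s) + μ • B s (dysonTerm A B v m μ s)‖ ≤
        (‖v‖ * K ^ (m + 1) / (m.factorial : ℝ)) * |s - 0| ^ m := by
      intro s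
      refine (norm_field_le A B C hAC hBC μ R hμ s _).trans ?_
      refine (mul_le_mul_of_nonneg_left (ih s) hK0).trans (le_of_eq ?_)
      simp only [sub_zero]; ring
    have h1 : ‖dysonTerm A B v (m + 1) μ x‖ ≤
        ∫ s in uIoc 0 x, (‖v‖ * K ^ (m + 1) / (m.factorial : ℝ)) * |s - 0| ^ m := by
      simp only [dysonTerm]
      rw [intervalIntegral.norm_intervalIntegral_eq]
      refine MeasureTheory.norm_integral_le_of_norm_le ?_ (Eventually.of_forall hb)
      have : Continuous fun s : ℝ => (‖v‖ * K ^ (m + 1) / (m.factorial : ℝ)) * |s - 0| ^ m := by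
        fun_prop
      exact (this.intervalIntegrable 0 x).def'
    rw [MeasureTheory.integral_const_mul, integral_pow_abs_sub_uIoc] at h1
    refine h1.trans (le_of_eq ?_)
    rw [Nat.factorial_succ]
    have : (m.factorial : ℝ) ≠ 0 := by positivity
    push_cast
    simp only [sub_zero]
    field_simp

theorem exists_solution (A B : ℝ → E →L[ℂ] E) (hA : Continuous A) (hB : Continuous B)
    (C : ℝ) (hAC : ∀ x, ‖A x‖ ≤ C) (hBC : ∀ x, ‖B x‖ ≤ C) (v : E) :
    ∃ y : ℂ → ℝ → E, (∀ μ, y μ 0 = v) ∧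
      (∀ μ x, HasDerivAt (y μ) (A x (y μ x) + μ • B x (y μ x)) x) ∧
      (∀ x, Differentiable ℂ (fun μ => y μ x)) := by
  have hC : 0 ≤ C := (norm_nonneg _).trans (hAC 0)
  have hsum : ∀ (K : ℝ), Summable (fun m : ℕ => ‖v‖ * (K ^ m / (m.factorial : ℝ))) := fun K =>
    (Real.summable_pow_div_factorial K).mul_left _
  have hbd : ∀ (μ : ℂ) (R : ℝ), ‖μ‖ ≤ R → ∀ (S x : ℝ), |x| ≤ S → ∀ m,
      ‖dysonTerm A B v m μ x‖ ≤ ‖v‖ * (((C + R * C) * S) ^ m / (m.factorial : ℝ)) := by
    intro μ R hμ S x hx m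
    have hR : 0 ≤ R := (norm_nonneg _).trans hμ
    refine (dysonTerm_norm_le A B v C hAC hBC μ R hμ m x).trans ?_
    rw [mul_pow]
    gcongr
  have hsm : ∀ μ x, Summable (fun m => dysonTerm A B v m μ x) := fun μ x =>
    Summable.of_norm_bounded (hsum _) (hbd μ _ le_rfl _ x le_rfl)
  refine ⟨fun μ x => ∑' m, dysonTerm A B v m μ x, ?_, ?_, ?_⟩
  · intro μ
    show ∑' m, dysonTerm A B v m μ 0 = v
    rw [(hsm μ 0).tsum_eq_zero_add]
    simp [dysonTerm]
  · intro μ x
    have e : (fun x => ∑' m, dysonTerm A B v m μ x) =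
        fun x => v + ∑' m, dysonTerm A B v (m + 1) μ x := by
      funext x
      rw [(hsm μ x).tsum_eq_zero_add]
      simp [dysonTerm]
    have hx : x ∈ Metric.ball (0 : ℝ) (|x| + 1) := by simp
    have h0 : (0 : ℝ) ∈ Metric.ball (0 : ℝ) (|x| + 1) := by
      simp; positivity
    have hd := hasDerivAt_tsum_of_isPreconnected
      (u := fun m : ℕ => (C + ‖μ‖ * C) *
        (‖v‖ * (((C + ‖μ‖ * C) * (|x| + 1)) ^ m / (m.factorial : ℝ))))
      (g := fun m => dysonTerm A B v (m + 1) μ)
      (g' := fun m s => A s (dysonTerm A B v m μ s) + μ • B s (dysonTerm A B v m μ s))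
      ((hsum _).mul_left _) Metric.isOpen_ball (convex_ball _ _).isPreconnected
      (fun m s _ => dysonTerm_hasDerivAt A B hA hB v m μ s)
      (fun m s hs => by
        refine (norm_field_le A B C hAC hBC μ _ le_rfl s _).trans ?_
        have hs' : |s| ≤ |x| + 1 := by
          have := mem_ball_zero_iff.1 hs
          rw [Real.norm_eq_abs] at this
          exact this.le
        gcongr
        exact hbd μ _ le_rfl _ s hs' m)
      h0 ((summable_nat_add_iff 1).2 (hsm μ 0)) hx
    have e2 : (∑' m, (A x (dysonTerm A B v m μ x) + μ • B x (dysonTerm A B v m μ x))) =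
        A x (∑' m, dysonTerm A B v m μ x) + μ • B x (∑' m, dysonTerm A B v m μ x) := by
      have := (A x + μ • B x).map_tsum (hsm μ x)
      simpa using this.symm
    rw [e2] at hd
    have := hd.const_add v
    rw [← e] at this
    exact this
  · intro x μ
    have hμ : μ ∈ Metric.ball (0 : ℂ) (‖μ‖ + 1) := by simp
    have hd := Complex.differentiableOn_tsum_of_summable_norm
      (F := fun m w => dysonTerm A B v m w x) (U := Metric.ball (0 : ℂ) (‖μ‖ + 1))
      (hsum ((C + (‖μ‖ + 1) * C) * |x|))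
      (fun m => ((dysonTerm_poly A B hA hB v m).differentiable x).differentiableOn)
      Metric.isOpen_ball
      (fun m w hw => hbd w _ (mem_ball_zero_iff.1 hw).le _ x le_rfl m)
    exact hd.differentiableAt (Metric.isOpen_ball.mem_nhds hμ)

omit [CompleteSpace E] in
theorem solution_unique (A B : ℝ → E →L[ℂ] E)
    (C : ℝ) (hAC : ∀ x, ‖A x‖ ≤ C) (hBC : ∀ x, ‖B x‖ ≤ C) (μ : ℂ) (y z : ℝ → E)
    (hy : ∀ x, HasDerivAt y (A x (y x) + μ • B x (y x)) x)
    (hz : ∀ x, HasDerivAt z (A x (z x) + μ • B x (z x)) x) (h0 : y 0 = z 0) : y = z := by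
  have hC : 0 ≤ C := (norm_nonneg _).trans (hAC 0)
  have hK : 0 ≤ C + ‖μ‖ * C := by positivity
  refine ODE_solution_unique_univ (v := fun x w => A x w + μ • B x w) (s := fun _ => univ)
    (K := ⟨C + ‖μ‖ * C, hK⟩) (t₀ := 0) ?_ (fun x => ⟨hy x, trivial⟩) (fun x => ⟨hz x, trivial⟩) h0
  intro x
  refine LipschitzWith.lipschitzOnWith ?_
  refine LipschitzWith.of_dist_le_mul fun w w' => ?_
  rw [dist_eq_norm, dist_eq_norm]
  have := norm_field_le A B C hAC hBC μ _ le_rfl x (w - w')
  simp only [map_sub, smul_sub] at this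
  refine le_of_eq_of_le ?_ this
  congr 1
  abel

end Pool.Agent.MP_1bac39_an.H95
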